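import Pool.Agent.H72.CH.Targets
import Pool.Agent.H94.FB.CPT

/-!
# Row CPT: compactness for homogeneous structures
-/

set_option autoImplicit false

namespace Pool.Agent.H66.CH

open Pool.Agent.H68.BP Pool.Agent.H58.SF Pool.Agent.H53.NR
open Pool.Agent.H57.AR (tp ty Ty HomEq)
open Pool.Agent.H57.LH (Hmg)
open Pool.Agent.H44.KR (HB Amg Tyi TpOn Rz LcN)
open Pool.Agent.H44.FB (CptC tpo_refl tpo_congr tp_of_tpOn eq_of_tp rel_of_tp)
open Pool.Agent.H94.FB (cptL cpt_claim1 cptL_tpo cptL_of_tpo cptL_mono)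
open Pool.Agent.H72.CH
open Function Classical

section

variable {V X W : Type} {ρ : Sig}

/-- Homogeneity, for finite subsets of a type which need not be finite. -/
theorem hmg_fin {𝔹 : Str ρ V} (hB : Hmg 𝔹) (X : Finset W) (A : Set W) (hA : A ⊆ (X : Set W))
    (x y : W → V) (h : TpOn 𝔹 A x y) : ∃ x' : W → V, TpOn 𝔹 (X : Set W) x x' ∧
      (∀ a ∈ A, x' a = y a) := by
  obtain ⟨x'', h1, h2⟩ := hB {w // w ∈ X} {w | w.1 ∈ A} (fun w => x w.1)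
    (fun w => y w.1) ⟨fun a ha b hb => h.1 _ ha _ hb, fun l z hz => h.2 l _ hz⟩
  have h4 : ∀ w (hw : w ∈ X), (if hw : w ∈ X then x'' ⟨w, hw⟩ else y w) = x'' ⟨w, hw⟩ :=
    fun w hw => dif_pos hw
  refine ⟨fun w => if hw : w ∈ X then x'' ⟨w, hw⟩ else y w, ⟨?_, ?_⟩, ?_⟩
  · intro a ha b hb
    show x a = x b ↔ (if hw : a ∈ X then x'' ⟨a, hw⟩ else y a) =
      if hw : b ∈ X then x'' ⟨b, hw⟩ else y b
    rw [h4 a ha, h4 b hb]
    exact (eq_of_tp h1 ⟨a, ha⟩ ⟨b, hb⟩).symm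
  · intro l z hz
    have h5 : (fun i => if hw : z i ∈ X then x'' ⟨z i, hw⟩ else y (z i)) =
        fun i => x'' ⟨z i, hz i⟩ := funext fun i => h4 _ (hz i)
    show 𝔹 l (fun i => x (z i)) ↔ 𝔹 l (fun i => if hw : z i ∈ X then x'' ⟨z i, hw⟩ else y (z i))
    rw [h5]
    exact (rel_of_tp h1 l fun i => ⟨z i, hz i⟩).symm
  · intro a ha
    show (if hw : a ∈ X then x'' ⟨a, hw⟩ else y a) = y a
    rw [h4 a (hA ha)]
    exact h2 ⟨a, hA ha⟩ ha

theorem cpt_claim2' {𝔹 : Str ρ V} (F : Finset X → X → V) (𝒰 : Ultrafilter (Finset X))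
    (hB : Hmg 𝔹) (A A' U : Finset X) (hA : A ⊆ A') (f : X → V)
    (hf : cptL 𝔹 F 𝒰 f (A ∪ U)) :
    ∃ f' : X → V, cptL 𝔹 F 𝒰 f' (A' ∪ U) ∧ ∀ x ∈ A ∪ U, f' x = f x := by
  obtain ⟨Y, hY⟩ := (cpt_claim1 𝔹 F 𝒰 (A' ∪ U)).exists
  have hs : A ∪ U ⊆ A' ∪ U := Finset.union_subset_union hA (Finset.Subset.refl U)
  obtain ⟨x', h1, h2⟩ := hmg_fin hB (A' ∪ U) ((A ∪ U : Finset X) : Set X)
    (Finset.coe_subset.2 hs) (F Y) f (cptL_tpo 𝔹 F 𝒰 (cptL_mono 𝔹 F 𝒰 hY hs) hf)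
  exact ⟨x', cptL_of_tpo 𝔹 F 𝒰 hY h1, fun x hx => h2 x hx⟩

end

theorem pf_CPT : T_CPT := by
  intro V ρ 𝔹 m lv hV X hX U g₀ S ha hb hc
  have hB := hV.hmg
  choose F hF hU using ha
  rcases isEmpty_or_nonempty X with hE | hN
  · refine ⟨F ∅, fun x _ => hE.elim x, fun Y => ?_⟩
    rw [Finset.eq_empty_of_isEmpty Y]
    exact hF ∅
  obtain ⟨e, he⟩ := exists_surjective_nat X
  choose r hr using he
  let 𝒰 : Ultrafilter (Finset X) := Ultrafilter.of Filter.atTop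
  have hle : (𝒰 : Filter (Finset X)) ≤ Filter.atTop := Ultrafilter.of_le _
  let A : ℕ → Finset X := fun n => (Finset.range n).image e
  have hA : ∀ n, A n ⊆ A (n + 1) := fun n =>
    Finset.image_subset_image (Finset.range_subset_range.2 (Nat.le_succ n))
  have hAm : ∀ m n, m ≤ n → A m ⊆ A n := fun m n h =>
    Finset.image_subset_image (Finset.range_subset_range.2 h)
  obtain ⟨Y₀, hY₀⟩ := (cpt_claim1 𝔹 F 𝒰 (A 0 ∪ U)).exists
  have step : ∀ n (f : X → V), ∃ f' : X → V, cptL 𝔹 F 𝒰 f (A n ∪ U) →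
      cptL 𝔹 F 𝒰 f' (A (n + 1) ∪ U) ∧ ∀ x ∈ A n ∪ U, f' x = f x := by
    intro n f
    by_cases h : cptL 𝔹 F 𝒰 f (A n ∪ U)
    · obtain ⟨f', h1, h2⟩ := cpt_claim2' F 𝒰 hB (A n) (A (n + 1)) U (hA n) f h
      exact ⟨f', fun _ => ⟨h1, h2⟩⟩
    · exact ⟨f, fun h' => absurd h' h⟩
  choose st hst using step
  let g : ℕ → X → V := fun n => Nat.rec (F Y₀) (fun n f => st n f) n
  have hg : ∀ n, cptL 𝔹 F 𝒰 (g n) (A n ∪ U) := by
    intro n
    induction n with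
    | zero => exact hY₀
    | succ n ih => exact (hst n (g n) ih).1
  have hgs : ∀ n, ∀ x ∈ A n ∪ U, g (n + 1) x = g n x := fun n => (hst n (g n) (hg n)).2
  have hgm : ∀ m n, m ≤ n → ∀ x ∈ A m ∪ U, g n x = g m x := by
    intro m n hmn
    induction n, hmn using Nat.le_induction with
    | base => exact fun x _ => rfl
    | succ n hmn ih =>
      intro x hx
      rw [hgs n x (Finset.union_subset_union (hAm m n hmn) (Finset.Subset.refl U) hx), ih x hx]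
  have hgg : ∀ m n, ∀ x ∈ A m ∪ U, x ∈ A n ∪ U → g m x = g n x := by
    intro m n x hm hn
    rcases le_total m n with h | h
    · exact (hgm m n h x hm).symm
    · exact hgm n m h x hn
  have hmem : ∀ x, x ∈ A (r x + 1) ∪ U := fun x => Finset.mem_union_left _
    (Finset.mem_image.2 ⟨r x, Finset.mem_range.2 (Nat.lt_succ_self _), hr x⟩)
  let f : X → V := fun x => g (r x + 1) x
  have hfg : ∀ m, ∀ x ∈ A m ∪ U, f x = g m x := fun m x hx => hgg _ _ x (hmem x) hx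
  have hfL : ∀ Y : Finset X, cptL 𝔹 F 𝒰 f Y := by
    intro Y
    have hY : Y ⊆ A (Y.sup r + 1) ∪ U := by
      intro x hx
      refine Finset.mem_union_left _ (Finset.mem_image.2 ⟨r x, Finset.mem_range.2 ?_, hr x⟩)
      have := Finset.le_sup (f := r) hx
      omega
    refine cptL_mono 𝔹 F 𝒰 (cptL_of_tpo 𝔹 F 𝒰 (hg (Y.sup r + 1)) ?_) hY
    exact tpo_congr (tpo_refl _ (g (Y.sup r + 1))) (fun _ _ => rfl)
      (fun a ha => hfg _ a ha)
  refine ⟨f, fun x hx => ?_, fun Y => ?_⟩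
  · rw [hfg 0 x (Finset.mem_union_right _ hx)]
    exact hU Y₀ x hx
  · obtain ⟨Y', h1, h2⟩ := ((cpt_claim1 𝔹 F 𝒰 Y).and
      (hle (Filter.eventually_ge_atTop Y))).exists
    exact hc Y (F Y') f (hb Y' Y (F Y') h2 (hF Y')) (cptL_tpo 𝔹 F 𝒰 h1 (hfL Y))

end Pool.Agent.H66.CH
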