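import Pool.Agent.H72.CH.Targets

/-!
# Row EXA: exact maps
-/

set_option autoImplicit false

namespace Pool.Agent.H66.CH

open Pool.Agent.H68.BP Pool.Agent.H58.SF Pool.Agent.H53.NR
open Pool.Agent.H57.AR (tp ty Ty HomEq)
open Pool.Agent.H44.KR (HB Amg Tyi TpOn Rz LcN)
open Pool.Agent.H72.CH

theorem pf_EXA : T_EXA := by
  rintro V ρ 𝔹 m lv hV ⟨N, hN⟩ X _ lam Λ C f hlam hf hC
  obtain ⟨g, hg1, hg2⟩ := hN X lam Λ C (fun _ l z => 𝔹 l (fun i => f (z i))) hlam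
    (fun U _ => ⟨f, fun x _ y _ => hf x y, fun a =>
      ⟨fun x _ y _ hx hy => hC a x hx y hy, fun l z _ => Iff.rfl⟩⟩)
  refine ⟨g, hg1, fun a => ⟨fun x hx y hy => ?_, fun l z hz => (hg2 a l z hz).symm⟩⟩
  have h1 : lv (f x) (f y) = lv (g x) (g y) := by rw [hC a x hx y hy, hg1]
  constructor
  · intro h
    apply hV.lev.eq
    rw [← h1, h]
    exact hV.lev.pl.self _
  · intro h
    apply hV.lev.eq
    rw [h1, h]
    exact hV.lev.pl.self _

end Pool.Agent.H66.CH
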