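import Pool.Agent.H72.CH.Targets2

/-!
# Row KST: from binary polymorphisms to all arities
-/

set_option autoImplicit false

namespace Pool.Agent.H66.CH

open Pool.Agent.H68.BP Pool.Agent.H58.SF Pool.Agent.H53.NR
open Pool.Agent.H57.AR (tp ty Ty HomEq)
open Pool.Agent.H44.KR (HB Amg Tyi TpOn Rz LcN)
open Pool.Agent.H44.FB (CptC EmbC)
open Pool.Agent.H72.CH

theorem pf_KST : T_KST := by
  intro V ρ σ 𝔹 m lv 𝔸 ht hE i j a b c a' c' d hK P _ _ f hf Z x y v u hZ hZc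
  classical
  have hg : ∀ p, ∃ g : V → V, (∀ (J : Type) (w : J → V), tp 𝔹 (fun k => g (w k)) = tp 𝔹 w) ∧
      (p ∈ Z → g a = x p ∧ g b = y p ∧ g c = v p) ∧
      (p ∉ Z → g a' = x p ∧ g c' = v p ∧ g d = u p) := by
    intro p
    by_cases hp : p ∈ Z
    · obtain ⟨g, h1, h2⟩ := hE (Fin 3) ![a, b, c] ![x p, y p, v p] (hZ p hp).1.symm
      exact ⟨g, h1, fun _ => ⟨h2 0, h2 1, h2 2⟩, fun h => absurd hp h⟩
    · obtain ⟨g, h1, h2⟩ := hE (Fin 3) ![a', c', d] ![x p, v p, u p] (hZc p hp).2.symm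
      exact ⟨g, h1, fun h => absurd h hp, fun _ => ⟨h2 0, h2 1, h2 2⟩⟩
  choose g hg1 hg2 hg3 using hg
  have hhom : ∀ p, IsHom 𝔸 𝔸 (g p) := fun p l z hz => ht l z _ hz (hg1 p _ z)
  have hP : IsPoly 𝔸 𝔸 (fun w : Fin 2 → V =>
      f (fun p => if p ∈ Z then g p (w 0) else g p (w 1))) := by
    intro l z hz
    refine hf l (fun p k => if p ∈ Z then g p (z 0 k) else g p (z 1 k)) fun p => ?_
    by_cases hp : p ∈ Z
    · simp only [if_pos hp]
      exact hhom p l _ (hz 0)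
    · simp only [if_neg hp]
      exact hhom p l _ (hz 1)
  have key := hK.st _ hP
  have e1 : (fun p => if p ∈ Z then g p ((![a, a'] : Fin 2 → V) 0)
      else g p ((![a, a'] : Fin 2 → V) 1)) = x := by
    funext p
    by_cases hp : p ∈ Z
    · rw [if_pos hp]; exact (hg2 p hp).1
    · rw [if_neg hp]; exact (hg3 p hp).1
  have e2 : (fun p => if p ∈ Z then g p ((![b, a'] : Fin 2 → V) 0)
      else g p ((![b, a'] : Fin 2 → V) 1)) = y := by
    funext p
    by_cases hp : p ∈ Z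
    · rw [if_pos hp]; exact (hg2 p hp).2.1
    · rw [if_neg hp, (hZc p hp).1]; exact (hg3 p hp).1
  have e3 : (fun p => if p ∈ Z then g p ((![c, c'] : Fin 2 → V) 0)
      else g p ((![c, c'] : Fin 2 → V) 1)) = v := by
    funext p
    by_cases hp : p ∈ Z
    · rw [if_pos hp]; exact (hg2 p hp).2.2
    · rw [if_neg hp]; exact (hg3 p hp).2.1
  have e4 : (fun p => if p ∈ Z then g p ((![c, d] : Fin 2 → V) 0)
      else g p ((![c, d] : Fin 2 → V) 1)) = u := by
    funext p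
    by_cases hp : p ∈ Z
    · rw [if_pos hp, (hZ p hp).2]; exact (hg2 p hp).2.2
    · rw [if_neg hp]; exact (hg3 p hp).2.2
  simp only [e1, e2, e3, e4] at key
  exact key

end Pool.Agent.H66.CH
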