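import Pool.Agent.H72.CH.Targets2

/-!
# Row RGI: rigidity depends only on the type
-/

set_option autoImplicit false

namespace Pool.Agent.H66.CH

open Pool.Agent.H68.BP Pool.Agent.H58.SF Pool.Agent.H53.NR
open Pool.Agent.H57.AR (tp ty Ty HomEq)
open Pool.Agent.H44.KR (HB Amg Tyi TpOn Rz LcN)
open Pool.Agent.H44.FB (CptC EmbC)
open Pool.Agent.H72.CH

theorem pf_RGI : T_RGI := by
  intro V ρ σ 𝔹 𝔸 ht hE x y x' y' hxy hr
  obtain ⟨ε, hε, hε2⟩ := hE (Fin 2) ![x, y] ![x', y'] hxy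
  have e0 : ε x = x' := hε2 0
  have e1 : ε y = y' := hε2 1
  have hεh : IsHom 𝔸 𝔸 ε := fun l z hz => ht l z _ hz (hε _ z)
  intro g hg
  obtain ⟨g1, hg1, hx, hy⟩ := hr (fun v => g (ε v)) (fun l z hz => hg l _ (hεh l z hz))
  refine ⟨fun v => ε (g1 v), fun l z hz => hεh l _ (hg1 l z hz), ?_, ?_⟩
  · show ε (g1 (g x')) = x'
    rw [← e0]
    exact congrArg ε hx
  · show ε (g1 (g y')) = y'
    rw [← e1]
    exact congrArg ε hy

end Pool.Agent.H66.CH
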